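import Pool.Agent.W254.HP.Opt
import Pool.Agent.W254.HP.Gen

/-!
# Polynomial relations between logarithms which are linear in all but a few of them

Q1 asks whether logarithms `l_i` of algebraic numbers which are linearly independent over `ℚ` satisfy
no nonzero polynomial relation over the field `ℚ̄` of algebraic numbers.  Baker's theorem excludes the
relations of degree one.  Here we consider the relations which are linear in the `l_i` but may have
any degree `≤ D` in further numbers `t_1, ..., t_n`; these may be arbitrary complex numbers, in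
particular other logarithms.

Proof.  The relations `∑ P_i(t) l_i = P_0(t)` have coefficients in the space `X(D + 1)` of the values
at `t` of the polynomials of degree at most `D` in each variable.  Multiplying by `X(D)` and using
`dim X(2 D) ≤ 2^n dim X(D)`, the hyperplane case of the linear subgroup theorem (Waldschmidt, Roy;
starting files `Pool.Agent.W254.HP`) bounds the rank of the set of these relations.
-/

set_option autoImplicit false

namespace Pool.Agent.Results.MP_60829e_nt.LinearInOtherLogs

open MvPolynomial

/-- `P` has degree at most `D` in each of the variables attached to `Fin n`, and every monomial of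
`P` contains no variable attached to `ι`, or exactly one of them, to the first power, and this one is
not attached to an element of `E`. -/
def LinearOutside {n : ℕ} {ι : Type} (D : ℕ) (E : Finset ι)
    (P : MvPolynomial (Fin n ⊕ ι) (algebraicClosure ℚ ℂ)) : Prop :=
  ∀ m ∈ P.support, (∀ j, m (Sum.inl j) ≤ D) ∧
    ((∀ i, m (Sum.inr i) = 0) ∨
      ∃ i, i ∉ E ∧ m (Sum.inr i) = 1 ∧ ∀ i', i' ≠ i → m (Sum.inr i') = 0)

/-- Let `l_i` (`i ∈ ι`, a finite or infinite family) be logarithms of algebraic numbers which are
linearly independent over `ℚ`, and `D ≥ 0`.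

(1) Let `t_1, ..., t_n` be arbitrary complex numbers.  There is a set `E` of at most
`(4 D)^n - 2^n` indices such that for all polynomials `P_0`, `P_i` (`i ∉ E`, almost all of them zero)
in `n` variables with algebraic coefficients and of degree at most `D` in each variable, the equation
`P_0(t) + ∑ P_i(t) l_i = 0` implies `P_0(t) = 0` and `P_i(t) = 0` for all `i`.

(2) Let `t_1, ..., t_n` be algebraically independent, for instance `n = 1` and `t_1` any
transcendental number.  There is a set `E` of at most `(4 D)^n - 2^n` indices such that `(t, l)`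
satisfies no nonzero polynomial relation over `ℚ̄` which has degree at most `D` in each `t_j` and is
linear in the `l_i` and contains only `l_i` with `i ∉ E`.

(3) Let `λ` be a nonzero logarithm of an algebraic number (`λ` need not be independent of the `l_i`)
and `D ≥ 1`.  There is a set `E` of at most `4 D - 2` indices such that `λ` and the `l_i`, `i ∉ E`,
satisfy no nonzero polynomial relation over `ℚ̄` which has degree at most `D` in `λ` and is linear
in the `l_i`. -/
theorem result {ι : Type} (l : ι → ℂ) (hl : ∀ i, IsAlgebraic ℚ (Complex.exp (l i)))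
    (hli : LinearIndependent ℚ l) (D : ℕ) :
    (∀ (n : ℕ) (t : Fin n → ℂ), ∃ E : Finset ι, E.card ≤ (4 * D) ^ n - 2 ^ n ∧
      ∀ (P₀ : MvPolynomial (Fin n) (algebraicClosure ℚ ℂ))
        (P : ι →₀ MvPolynomial (Fin n) (algebraicClosure ℚ ℂ)),
        (∀ m ∈ P₀.support, ∀ j, m j ≤ D) → (∀ i, ∀ m ∈ (P i).support, ∀ j, m j ≤ D) →
        (∀ i ∈ E, P i = 0) → aeval t P₀ + P.sum (fun i R => aeval t R * l i) = 0 →
        aeval t P₀ = 0 ∧ ∀ i, aeval t (P i) = 0) ∧
    (∀ (n : ℕ) (t : Fin n → ℂ), AlgebraicIndependent (algebraicClosure ℚ ℂ) t →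
      ∃ E : Finset ι, E.card ≤ (4 * D) ^ n - 2 ^ n ∧
        ∀ P : MvPolynomial (Fin n ⊕ ι) (algebraicClosure ℚ ℂ), LinearOutside D E P →
          aeval (Sum.elim t l) P = 0 → P = 0) ∧
    (1 ≤ D → ∀ lam : ℂ, lam ≠ 0 → IsAlgebraic ℚ (Complex.exp lam) →
      ∃ E : Finset ι, E.card ≤ 4 * D - 2 ∧
        ∀ P : MvPolynomial (Fin 1 ⊕ ι) (algebraicClosure ℚ ℂ), LinearOutside D E P →
          aeval (Sum.elim (fun _ => lam) l) P = 0 → P = 0) := by
  refine ⟨fun n t => Pool.Agent.W254.HP.gen_logs t D l hl hli,
    fun n t ht => Pool.Agent.W254.HP.linear_in_logs ht D l hl hli, fun hD lam h0 hlam => ?_⟩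
  have htr : Transcendental ℚ lam := by
    intro halg
    have h1 := Pool.Agent.H297R2.baker_inhom (ι := Fin 1) (fun _ => lam) (fun _ => hlam) (by
      rw [Fintype.linearIndependent_iff]
      intro g hg i
      rw [Fin.sum_univ_one, smul_eq_zero] at hg
      rw [Subsingleton.elim i 0]
      exact hg.resolve_right h0) (-lam) halg.neg (fun _ => 1)
      (fun _ => isAlgebraic_one) (by simp)
    exact one_ne_zero (h1.2 0)
  have ht : AlgebraicIndependent (algebraicClosure ℚ ℂ) (fun _ : Fin 1 => lam) := by
    have h1 : Transcendental (algebraicClosure ℚ ℂ) lam := by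
      intro h
      have : Algebra.IsAlgebraic ℚ (algebraicClosure ℚ ℂ) := algebraicClosure.isAlgebraic ℚ ℂ
      exact htr (h.restrictScalars ℚ)
    exact (algebraicIndependent_unique_type_iff (ι := Fin 1)).2 h1
  have := Pool.Agent.W254.HP.linear_in_logs ht D l hl hli
  rwa [pow_one, pow_one] at this

end Pool.Agent.Results.MP_60829e_nt.LinearInOtherLogs
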