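import Pool.Agent.H297R2.LPM.Quad
import Pool.Agent.H267.NQ.Core

/-!
# Quadratic near relations between two logarithms, and arbitrary numbers

`l` and `m` are two linearly independent elements of `ℚ log 2 + ℚ iπ`, for instance `log 2` and `iπ`.  At every scale
all quadratic near relations between `l` and `m` are multiples of one polynomial, with the exponent `447`; the near
relations between the quadratic monomials in `l`, `m` and `r` arbitrary complex numbers span a space of dimension at most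
`r + 1`; and the quadratic near relations are sparse.

The proof uses the library's measure of linear independence of `1, log 2, π²` with the exponent `223`
(`Pool.Agent.LP.MS.quad_measure`: quadratic polynomials in `log 2` and `iπ` without the term `(log 2)²`) and the weighted
elimination of arbitrary numbers.
-/

set_option autoImplicit false

namespace Pool.Agent.Results.MP_60829e_nt.QuadraticNearRelations

/-- The value at `(l, m)` of the polynomial `P 0 + P 1 X + P 2 Y + P 3 X² + P 4 X Y + P 5 Y²`. -/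
noncomputable def value (l m : ℂ) (P : Fin 6 → ℤ) : ℂ :=
  P 0 + P 1 * l + P 2 * m + P 3 * l ^ 2 + P 4 * (l * m) + P 5 * m ^ 2

lemma value_eq (l m : ℂ) (P : Fin 6 → ℤ) :
    ∑ i, (P i : ℂ) * (![1, l, m, l ^ 2, l * m, m ^ 2] : Fin 6 → ℂ) i = value l m P := by
  simp [Fin.sum_univ_succ, value]
  ring

lemma common (x₁ y₁ x₂ y₂ : ℚ) : ∃ N X₁ Y₁ X₂ Y₂ : ℤ, N ≠ 0 ∧ (X₁ : ℚ) = N * x₁ ∧ (Y₁ : ℚ) = N * y₁ ∧
    (X₂ : ℚ) = N * x₂ ∧ (Y₂ : ℚ) = N * y₂ := by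
  refine ⟨x₁.den * y₁.den * x₂.den * y₂.den, x₁.num * y₁.den * x₂.den * y₂.den,
    x₁.den * y₁.num * x₂.den * y₂.den, x₁.den * y₁.den * x₂.num * y₂.den, x₁.den * y₁.den * x₂.den * y₂.num,
    ?_, ?_, ?_, ?_, ?_⟩
  · have h1 := x₁.den_pos
    have h2 := y₁.den_pos
    have h3 := x₂.den_pos
    have h4 := y₂.den_pos
    positivity
  · have := Rat.mul_den_eq_num x₁
    push_cast
    rw [← this]
    ring
  · have := Rat.mul_den_eq_num y₁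
    push_cast
    rw [← this]
    ring
  · have := Rat.mul_den_eq_num x₂
    push_cast
    rw [← this]
    ring
  · have := Rat.mul_den_eq_num y₂
    push_cast
    rw [← this]
    ring

/-- the lower bound on the polynomials without the term `(log 2)²` -/
lemma low (N X₁ Y₁ X₂ Y₂ : ℤ) (hN : N ≠ 0) (hdet : X₁ * Y₂ - X₂ * Y₁ ≠ 0) (l m : ℂ)
    (hl : (N : ℂ) * l = X₁ * (Real.log 2 : ℂ) + Y₁ * (Real.pi * Complex.I))
    (hm : (N : ℂ) * m = X₂ * (Real.log 2 : ℂ) + Y₂ * (Real.pi * Complex.I)) :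
    ∃ c : ℝ, 0 < c ∧ ∀ P : Fin 6 → ℤ, P ≠ 0 → P 3 * X₁ ^ 2 + P 4 * (X₁ * X₂) + P 5 * X₂ ^ 2 = 0 →
      ∀ H : ℝ, 1 ≤ H → (∀ i, |(P i : ℝ)| ≤ H) → c / H ^ 223 ≤ ‖value l m P‖ := by
  obtain ⟨c, hc, h⟩ := Pool.Agent.LP.MS.quad_measure
  obtain ⟨M, hM⟩ : ∃ M : ℝ, M = |(N : ℝ)| ^ 2 + |(N : ℝ)| * (|(X₁ : ℝ)| + |(X₂ : ℝ)|) +
      |(N : ℝ)| * (|(Y₁ : ℝ)| + |(Y₂ : ℝ)|) +
      (2 * |(X₁ : ℝ)| * |(Y₁ : ℝ)| + (|(X₁ : ℝ)| * |(Y₂ : ℝ)| + |(X₂ : ℝ)| * |(Y₁ : ℝ)|) +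
        2 * |(X₂ : ℝ)| * |(Y₂ : ℝ)|) + (|(Y₁ : ℝ)| ^ 2 + |(Y₁ : ℝ)| * |(Y₂ : ℝ)| + |(Y₂ : ℝ)| ^ 2) := ⟨_, rfl⟩
  have hNR : (1 : ℝ) ≤ |(N : ℝ)| := by exact_mod_cast Int.one_le_abs hN
  have hM1 : 1 ≤ M := by
    have h1 : (1 : ℝ) ≤ |(N : ℝ)| ^ 2 := one_le_pow₀ hNR
    have h2 : M - |(N : ℝ)| ^ 2 ≥ 0 := by
      rw [hM]
      have : (0 : ℝ) ≤ |(N : ℝ)| * (|(X₁ : ℝ)| + |(X₂ : ℝ)|) + |(N : ℝ)| * (|(Y₁ : ℝ)| + |(Y₂ : ℝ)|) +
        (2 * |(X₁ : ℝ)| * |(Y₁ : ℝ)| + (|(X₁ : ℝ)| * |(Y₂ : ℝ)| + |(X₂ : ℝ)| * |(Y₁ : ℝ)|) +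
        2 * |(X₂ : ℝ)| * |(Y₂ : ℝ)|) + (|(Y₁ : ℝ)| ^ 2 + |(Y₁ : ℝ)| * |(Y₂ : ℝ)| + |(Y₂ : ℝ)| ^ 2) := by
        positivity
      linarith
    linarith
  have hM0 : 0 < M := by linarith
  refine ⟨c / M ^ 223 / |(N : ℝ)| ^ 2, by positivity, fun P hP hq H hH hPH => ?_⟩
  have hH0 : 0 < H := by linarith
  have hdet2 : (X₁ * Y₂ - X₂ * Y₁) ^ 2 ≠ 0 := pow_ne_zero 2 hdet
  have hne : N ^ 2 * P 0 ≠ 0 ∨ N * (P 1 * X₁ + P 2 * X₂) ≠ 0 ∨ N * (P 1 * Y₁ + P 2 * Y₂) ≠ 0 ∨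
      2 * P 3 * X₁ * Y₁ + P 4 * (X₁ * Y₂ + X₂ * Y₁) + 2 * P 5 * X₂ * Y₂ ≠ 0 ∨
      P 3 * Y₁ ^ 2 + P 4 * (Y₁ * Y₂) + P 5 * Y₂ ^ 2 ≠ 0 := by
    by_contra hcon
    push Not at hcon
    obtain ⟨h0, g1, g2, k3, k2⟩ := hcon
    have g1 := (mul_eq_zero.1 g1).resolve_left hN
    have g2 := (mul_eq_zero.1 g2).resolve_left hN
    have h0 := (mul_eq_zero.1 h0).resolve_left (pow_ne_zero 2 hN)
    have hb : P 1 = 0 := by
      have : P 1 * (X₁ * Y₂ - X₂ * Y₁) = 0 := by linear_combination Y₂ * g1 - X₂ * g2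
      exact (mul_eq_zero.1 this).resolve_right hdet
    have hd : P 2 = 0 := by
      have : P 2 * (X₁ * Y₂ - X₂ * Y₁) = 0 := by linear_combination X₁ * g2 - Y₁ * g1
      exact (mul_eq_zero.1 this).resolve_right hdet
    have he : P 3 = 0 := by
      have : P 3 * (X₁ * Y₂ - X₂ * Y₁) ^ 2 = 0 := by
        linear_combination Y₂ ^ 2 * hq + X₂ ^ 2 * k2 - X₂ * Y₂ * k3
      exact (mul_eq_zero.1 this).resolve_right hdet2
    have hg : P 5 = 0 := by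
      have : P 5 * (X₁ * Y₂ - X₂ * Y₁) ^ 2 = 0 := by
        linear_combination Y₁ ^ 2 * hq + X₁ ^ 2 * k2 - X₁ * Y₁ * k3
      exact (mul_eq_zero.1 this).resolve_right hdet2
    have hf : P 4 = 0 := by
      have : P 4 * (X₁ * Y₂ - X₂ * Y₁) ^ 2 = 0 := by
        linear_combination (-2) * (Y₁ * Y₂) * hq - 2 * (X₁ * X₂) * k2 + (X₁ * Y₂ + X₂ * Y₁) * k3
      exact (mul_eq_zero.1 this).resolve_right hdet2
    apply hP
    funext i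
    fin_cases i <;> simp [h0, hb, hd, he, hg, hf]
  have n1 := abs_nonneg (N : ℝ)
  have n2 := abs_nonneg (X₁ : ℝ)
  have n3 := abs_nonneg (X₂ : ℝ)
  have n4 := abs_nonneg (Y₁ : ℝ)
  have n5 := abs_nonneg (Y₂ : ℝ)
  have t1 : 0 ≤ |(N : ℝ)| ^ 2 := by positivity
  have t2 : 0 ≤ |(N : ℝ)| * (|(X₁ : ℝ)| + |(X₂ : ℝ)|) := by positivity
  have t3 : 0 ≤ |(N : ℝ)| * (|(Y₁ : ℝ)| + |(Y₂ : ℝ)|) := by positivity
  have t4 : 0 ≤ 2 * |(X₁ : ℝ)| * |(Y₁ : ℝ)| + (|(X₁ : ℝ)| * |(Y₂ : ℝ)| + |(X₂ : ℝ)| * |(Y₁ : ℝ)|) +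
        2 * |(X₂ : ℝ)| * |(Y₂ : ℝ)| := by positivity
  have t5 : 0 ≤ |(Y₁ : ℝ)| ^ 2 + |(Y₁ : ℝ)| * |(Y₂ : ℝ)| + |(Y₂ : ℝ)| ^ 2 := by positivity
  have h0 := hPH 0
  have h1 := hPH 1
  have h2 := hPH 2
  have h3 := hPH 3
  have h4 := hPH 4
  have h5 := hPH 5
  have key := h _ _ _ _ _ hne (M * H) (by
      push_cast
      rw [abs_mul, abs_pow]
      calc |(N : ℝ)| ^ 2 * |(P 0 : ℝ)| ≤ M * H := mul_le_mul (by linarith) h0 (abs_nonneg _) (by linarith)) (by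
      push_cast
      rw [abs_mul]
      calc |(N : ℝ)| * |(P 1 : ℝ) * X₁ + P 2 * X₂| ≤ |(N : ℝ)| * (H * |(X₁ : ℝ)| + H * |(X₂ : ℝ)|) := by
            gcongr
            refine (abs_add_le _ _).trans ?_
            rw [abs_mul, abs_mul]
            gcongr
        _ = (|(N : ℝ)| * (|(X₁ : ℝ)| + |(X₂ : ℝ)|)) * H := by ring
        _ ≤ M * H := mul_le_mul_of_nonneg_right (by linarith) hH0.le) (by
      push_cast
      rw [abs_mul]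
      calc |(N : ℝ)| * |(P 1 : ℝ) * Y₁ + P 2 * Y₂| ≤ |(N : ℝ)| * (H * |(Y₁ : ℝ)| + H * |(Y₂ : ℝ)|) := by
            gcongr
            refine (abs_add_le _ _).trans ?_
            rw [abs_mul, abs_mul]
            gcongr
        _ = (|(N : ℝ)| * (|(Y₁ : ℝ)| + |(Y₂ : ℝ)|)) * H := by ring
        _ ≤ M * H := mul_le_mul_of_nonneg_right (by linarith) hH0.le) (by
      push_cast
      calc |2 * (P 3 : ℝ) * X₁ * Y₁ + P 4 * (X₁ * Y₂ + X₂ * Y₁) + 2 * P 5 * X₂ * Y₂|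
          ≤ |2 * (P 3 : ℝ) * X₁ * Y₁| + |(P 4 : ℝ) * (X₁ * Y₂ + X₂ * Y₁)| + |2 * (P 5 : ℝ) * X₂ * Y₂| :=
            abs_add_three _ _ _
        _ ≤ 2 * H * |(X₁ : ℝ)| * |(Y₁ : ℝ)| + H * (|(X₁ : ℝ)| * |(Y₂ : ℝ)| + |(X₂ : ℝ)| * |(Y₁ : ℝ)|) +
            2 * H * |(X₂ : ℝ)| * |(Y₂ : ℝ)| := by
            simp only [abs_mul, abs_two]
            gcongr
            refine (abs_add_le _ _).trans ?_
            rw [abs_mul, abs_mul]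
        _ = (2 * |(X₁ : ℝ)| * |(Y₁ : ℝ)| + (|(X₁ : ℝ)| * |(Y₂ : ℝ)| + |(X₂ : ℝ)| * |(Y₁ : ℝ)|) +
            2 * |(X₂ : ℝ)| * |(Y₂ : ℝ)|) * H := by ring
        _ ≤ M * H := mul_le_mul_of_nonneg_right (by linarith) hH0.le) (by
      push_cast
      calc |(P 3 : ℝ) * Y₁ ^ 2 + P 4 * (Y₁ * Y₂) + P 5 * Y₂ ^ 2|
          ≤ |(P 3 : ℝ) * Y₁ ^ 2| + |(P 4 : ℝ) * (Y₁ * Y₂)| + |(P 5 : ℝ) * Y₂ ^ 2| := abs_add_three _ _ _
        _ ≤ H * |(Y₁ : ℝ)| ^ 2 + H * (|(Y₁ : ℝ)| * |(Y₂ : ℝ)|) + H * |(Y₂ : ℝ)| ^ 2 := by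
            simp only [abs_mul, abs_pow]
            gcongr
        _ = (|(Y₁ : ℝ)| ^ 2 + |(Y₁ : ℝ)| * |(Y₂ : ℝ)| + |(Y₂ : ℝ)| ^ 2) * H := by ring
        _ ≤ M * H := mul_le_mul_of_nonneg_right (by linarith) hH0.le)
  have hqC : (P 3 : ℂ) * X₁ ^ 2 + P 4 * (X₁ * X₂) + P 5 * X₂ ^ 2 = 0 := by exact_mod_cast hq
  have e1 : ((N ^ 2 * P 0 : ℤ) : ℂ) + ((N * (P 1 * X₁ + P 2 * X₂) : ℤ) : ℂ) * (Real.log 2 : ℂ) +
          ((N * (P 1 * Y₁ + P 2 * Y₂) : ℤ) : ℂ) * (Real.pi * Complex.I) +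
          ((2 * P 3 * X₁ * Y₁ + P 4 * (X₁ * Y₂ + X₂ * Y₁) + 2 * P 5 * X₂ * Y₂ : ℤ) : ℂ) *
            ((Real.log 2 : ℂ) * (Real.pi * Complex.I)) +
          ((P 3 * Y₁ ^ 2 + P 4 * (Y₁ * Y₂) + P 5 * Y₂ ^ 2 : ℤ) : ℂ) * (Real.pi * Complex.I) ^ 2 =
      (N : ℂ) ^ 2 * value l m P := by
    have e2 : (N : ℂ) ^ 2 * value l m P = (N : ℂ) ^ 2 * P 0 + (N * P 1) * (N * l) + (N * P 2) * (N * m) +
        P 3 * (N * l) ^ 2 + P 4 * ((N * l) * (N * m)) + P 5 * (N * m) ^ 2 := by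
      unfold value
      ring
    rw [e2, hl, hm]
    push_cast
    linear_combination (-((Real.log 2 : ℂ) ^ 2)) * hqC
  rw [e1, norm_mul, norm_pow, Complex.norm_intCast] at key
  have hN2 : (0 : ℝ) < |(N : ℝ)| ^ 2 := by positivity
  calc c / M ^ 223 / |(N : ℝ)| ^ 2 / H ^ 223 = c / (M * H) ^ 223 / |(N : ℝ)| ^ 2 := by
        rw [mul_pow]
        field_simp
    _ ≤ (|(N : ℝ)| ^ 2 * ‖value l m P‖) / |(N : ℝ)| ^ 2 := div_le_div_of_nonneg_right key hN2.le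
    _ = ‖value l m P‖ := by
        field_simp

section

variable (x₁ y₁ x₂ y₂ : ℚ) (hdet : x₁ * y₂ - x₂ * y₁ ≠ 0) (l m : ℂ)
  (hl : l = x₁ * (Real.log 2 : ℂ) + y₁ * (Real.pi * Complex.I))
  (hm : m = x₂ * (Real.log 2 : ℂ) + y₂ * (Real.pi * Complex.I))

include hdet hl hm

lemma prod_ineq (r : ℕ) : ∃ c : ℝ, 0 < c ∧ ∀ (t : Fin r → ℂ) (P : Fin (r + 2) → Fin 6 → ℤ)
      (e : Fin (r + 2) → Fin r → ℤ) (h : Fin (r + 2) → ℝ), LinearIndependent ℤ (fun k => (P k, e k)) →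
      (∀ k, 1 ≤ h k ∧ (∀ i, |(P k i : ℝ)| ≤ h k) ∧ ∀ i, |(e k i : ℝ)| ≤ h k) →
      c * ∏ k, (h k ^ 224)⁻¹ ≤ ∑ k, ‖value l m (P k) + ∑ i, (e k i : ℂ) * t i‖ / h k := by
  obtain ⟨N, X₁, Y₁, X₂, Y₂, hN, hX₁, hY₁, hX₂, hY₂⟩ := common x₁ y₁ x₂ y₂
  have hNQ : (N : ℚ) ≠ 0 := by exact_mod_cast hN
  have hdet' : X₁ * Y₂ - X₂ * Y₁ ≠ 0 := by
    intro h0
    apply hdet
    have h1 : (X₁ : ℚ) * Y₂ - X₂ * Y₁ = 0 := by exact_mod_cast h0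
    rw [hX₁, hX₂, hY₁, hY₂] at h1
    have h2 : (N : ℚ) ^ 2 * (x₁ * y₂ - x₂ * y₁) = 0 := by linear_combination h1
    exact (mul_eq_zero.1 h2).resolve_left (pow_ne_zero 2 hNQ)
  have cX₁ : (X₁ : ℂ) = N * x₁ := by exact_mod_cast congrArg (fun q : ℚ => (q : ℂ)) hX₁
  have cY₁ : (Y₁ : ℂ) = N * y₁ := by exact_mod_cast congrArg (fun q : ℚ => (q : ℂ)) hY₁
  have cX₂ : (X₂ : ℂ) = N * x₂ := by exact_mod_cast congrArg (fun q : ℚ => (q : ℂ)) hX₂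
  have cY₂ : (Y₂ : ℂ) = N * y₂ := by exact_mod_cast congrArg (fun q : ℚ => (q : ℂ)) hY₂
  obtain ⟨c, hc, h⟩ := low N X₁ Y₁ X₂ Y₂ hN hdet' l m (by rw [hl, cX₁, cY₁]; ring) (by rw [hm, cX₂, cY₂]; ring)
  obtain ⟨c', hc', h'⟩ := Pool.Agent.H267.NQ.core (![1, l, m, l ^ 2, l * m, m ^ 2] : Fin 6 → ℂ)
    (![0, 0, 0, X₁ ^ 2, X₁ * X₂, X₂ ^ 2] : Fin 6 → ℤ) 223 c hc (by
      intro P hP hq H hH hPH
      have hq' : P 3 * X₁ ^ 2 + P 4 * (X₁ * X₂) + P 5 * X₂ ^ 2 = 0 := by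
        simp [Fin.sum_univ_succ] at hq
        linear_combination hq
      rw [value_eq]
      exact h P hP hq' H hH hPH) r
  refine ⟨c', hc', fun t P e h hli hh => ?_⟩
  have h2 := h' t P e h hli hh
  simp only [value_eq] at h2
  exact h2

/-- two quadratic polynomials -/
lemma two : ∃ c : ℝ, 0 < c ∧ ∀ (P Q : Fin 6 → ℤ) (h k : ℝ), LinearIndependent ℤ ![P, Q] →
      1 ≤ h → 1 ≤ k → (∀ i, |(P i : ℝ)| ≤ h) → (∀ i, |(Q i : ℝ)| ≤ k) →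
      c / (h ^ 224 * k ^ 224) ≤ ‖value l m P‖ / h + ‖value l m Q‖ / k := by
  obtain ⟨c, hc, h'⟩ := prod_ineq x₁ y₁ x₂ y₂ hdet l m hl hm 0
  refine ⟨c, hc, fun P Q h k hli h1 h2 h3 h4 => ?_⟩
  have key : c * ∏ j : Fin 2, ((![h, k] : Fin 2 → ℝ) j ^ 224)⁻¹ ≤
      ∑ j : Fin 2, ‖value l m ((![P, Q] : Fin 2 → Fin 6 → ℤ) j) +
        ∑ i : Fin 0, (((fun _ i => i.elim0 : Fin 2 → Fin 0 → ℤ) j i : ℤ) : ℂ) *
          (fun i => i.elim0 : Fin 0 → ℂ) i‖ / (![h, k] : Fin 2 → ℝ) j :=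
    h' (fun i => i.elim0) ![P, Q] (fun _ i => i.elim0) ![h, k] (by
      rw [Fintype.linearIndependent_iff] at hli ⊢
      intro g hg
      apply hli g
      have := congrArg Prod.fst hg
      rw [Prod.fst_sum] at this
      exact this) (by
      intro j
      fin_cases j
      · exact ⟨h1, h3, fun i => i.elim0⟩
      · exact ⟨h2, h4, fun i => i.elim0⟩)
  simp only [Fin.prod_univ_two, Fin.sum_univ_two, Matrix.cons_val_zero, Matrix.cons_val_one,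
    Finset.univ_eq_empty, Finset.sum_empty, add_zero] at key
  calc c / (h ^ 224 * k ^ 224) = c * ((h ^ 224)⁻¹ * (k ^ 224)⁻¹) := by
        rw [div_eq_mul_inv, mul_inv]
    _ ≤ _ := key

/-- the near relations at the scale `X` are proportional -/
lemma one_line : ∃ c : ℝ, 0 < c ∧ ∀ X : ℝ, 1 ≤ X → ∃ Q : Fin 6 → ℤ, Q ≠ 0 ∧ ∀ P : Fin 6 → ℤ,
      (∀ i, |(P i : ℝ)| ≤ X) → ‖value l m P‖ < c / X ^ 447 → ∃ a b : ℤ, a ≠ 0 ∧ a • P = b • Q := by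
  obtain ⟨c, hc, h'⟩ := two x₁ y₁ x₂ y₂ hdet l m hl hm
  refine ⟨c / 2, by positivity, fun X hX => ?_⟩
  have hX0 : 0 < X := by linarith
  by_cases hex : ∃ Q : Fin 6 → ℤ, Q ≠ 0 ∧ (∀ i, |(Q i : ℝ)| ≤ X) ∧ ‖value l m Q‖ < c / 2 / X ^ 447
  · obtain ⟨Q, hQ0, hQX, hQ⟩ := hex
    refine ⟨Q, hQ0, fun P hPX hP => ?_⟩
    by_contra hcon
    push Not at hcon
    have hli : LinearIndependent ℤ ![P, Q] := by
      rw [LinearIndependent.pair_iff]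
      intro s u hsu
      have hs : s = 0 := by
        by_contra hs
        refine hcon s (-u) hs ?_
        rw [neg_smul]
        exact eq_neg_of_add_eq_zero_left hsu
      subst hs
      rw [zero_smul, zero_add] at hsu
      exact ⟨rfl, (smul_eq_zero.1 hsu).resolve_right hQ0⟩
    have h1 := h' P Q X X hli hX hX hPX hQX
    rw [← add_div] at h1
    have h2 : (‖value l m P‖ + ‖value l m Q‖) / X < (c / X ^ 447) / X := by
      apply div_lt_div_of_pos_right _ hX0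
      have e1 : c / X ^ 447 = c / 2 / X ^ 447 + c / 2 / X ^ 447 := by ring
      rw [e1]
      exact add_lt_add hP hQ
    have e2 : c / X ^ 447 / X = c / (X ^ 224 * X ^ 224) := by
      rw [div_div, ← pow_succ, ← pow_add]
    linarith
  · push Not at hex
    refine ⟨fun _ => 1, fun h => by simpa using congrFun h 0, fun P hPX hP => ⟨1, 0, one_ne_zero, ?_⟩⟩
    rw [one_smul, zero_smul]
    by_contra hP0
    exact absurd hP (not_lt.2 (hex P hP0 hPX))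

/-- quadratic near relations are sparse -/
lemma sparse (w ρ : ℝ) (hρ : 1 < ρ) (hw : ρ < (w - 223) / 224) : ∃ C : ℝ, ∀ S : Set (Fin 6 → ℤ),
      (∀ P ∈ S, ∀ Q ∈ S, P ≠ Q → LinearIndependent ℤ ![P, Q]) →
      (∀ P ∈ S, ‖value l m P‖ ≤ ‖P‖ ^ (-w)) → ∀ X : ℝ, 3 ≤ X →
      {P ∈ S | ‖P‖ ≤ X}.Finite ∧
        ({P ∈ S | ‖P‖ ≤ X}.ncard : ℝ) ≤ Real.log (Real.log X) / Real.log ρ + C := by
  obtain ⟨c, hc, h'⟩ := two x₁ y₁ x₂ y₂ hdet l m hl hm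
  have hw1 : 0 < w - 223 := by
    have h1 : 1 < (w - 223) / 224 := hρ.trans hw
    rw [lt_div_iff₀ (by norm_num)] at h1
    linarith
  obtain ⟨C, hC⟩ := Pool.Agent.TH550.NRZ.count_unif (α := Fin 6 → ℤ) (fun P => ‖P‖)
    (fun X => by
      have h1 : {x : Fin 6 → ℤ | ‖x‖ ≤ X} = Metric.closedBall 0 X := by
        ext x
        simp
      rw [h1]
      exact isCompact_iff_finite.1 (isCompact_closedBall 0 X))
    ((c / 2) ^ ((1 : ℝ) / 224)) ((w - 223) / 224) ρ (by positivity) hρ hw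
  refine ⟨C, fun S hS1 hS2 => hC S ?_⟩
  intro P hP Q hQ hne hle h1
  have h2 := h' P Q ‖P‖ ‖Q‖ (hS1 P hP Q hQ hne) h1 (h1.trans hle)
    (fun i => norm_le_pi_norm P i) (fun i => norm_le_pi_norm Q i)
  obtain ⟨H, hH⟩ : ∃ H : ℝ, H = ‖P‖ := ⟨_, rfl⟩
  obtain ⟨K, hK⟩ : ∃ K : ℝ, K = ‖Q‖ := ⟨_, rfl⟩
  have hP2 := hS2 P hP
  have hQ2 := hS2 Q hQ
  rw [← hH] at h1 hle h2 hP2 ⊢
  rw [← hK] at hle h2 hQ2 ⊢
  have hH0 : 0 < H := by linarith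
  have hK0 : 0 < K := by linarith
  have h3 : ‖value l m P‖ / H ≤ H ^ (-w) / H := div_le_div_of_nonneg_right hP2 hH0.le
  have h4 : ‖value l m Q‖ / K ≤ H ^ (-w) / H := by
    refine div_le_div₀ (by positivity) (hQ2.trans ?_) hH0 hle
    exact Real.rpow_le_rpow_of_nonpos hH0 hle (by linarith)
  have h5 : c / (H ^ 224 * K ^ 224) ≤ 2 * (H ^ (-w) / H) := by linarith
  have h6 : c / 2 * H ^ (w - 223) ≤ K ^ (224 : ℕ) := by
    rw [div_le_iff₀ (by positivity)] at h5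
    have e1 : H ^ (w - 223) * (H ^ (-w) / H * H ^ 224) = 1 := by
      have e3 : H ^ (-w) / H * H ^ 224 = H ^ ((-w) + 223) := by
        rw [Real.rpow_add hH0, pow_succ]
        have : H ^ ((223 : ℝ)) = H ^ (223 : ℕ) := by
          rw [← Real.rpow_natCast]
          norm_num
        rw [this]
        field_simp
      rw [e3, ← Real.rpow_add hH0]
      have : w - 223 + (-w + 223) = 0 := by ring
      rw [this, Real.rpow_zero]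
    have h7 : 0 ≤ H ^ (w - 223) := by positivity
    have h8 := mul_le_mul_of_nonneg_left h5 h7
    have e2 : H ^ (w - 223) * (2 * (H ^ (-w) / H) * (H ^ 224 * K ^ 224)) =
        2 * (H ^ (w - 223) * (H ^ (-w) / H * H ^ 224)) * K ^ 224 := by ring
    rw [e2, e1] at h8
    linarith
  have h9 := Real.rpow_le_rpow (by positivity) h6 (show (0 : ℝ) ≤ 1 / 224 by norm_num)
  rw [Real.mul_rpow (by positivity) (by positivity), ← Real.rpow_mul hH0.le, ← Real.rpow_natCast,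
    ← Real.rpow_mul hK0.le] at h9
  have e4 : (w - 223) * (1 / 224) = (w - 223) / 224 := by ring
  have e5 : ((224 : ℕ) : ℝ) * (1 / 224) = 1 := by norm_num
  rw [e4, e5, Real.rpow_one] at h9
  exact h9

end

/-- **Quadratic near relations.**  Let `l`, `m` be two linearly independent elements of `ℚ log 2 + ℚ iπ`.

1. For every `r` there is `c > 0` such that for all complex numbers `t_1, …, t_r` and all `r + 2` linearly independent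
integer vectors `(P_k; e_k)` (`P_k` being a polynomial of degree at most `2` in two variables) of size at most `h_k`,
`c ∏ h_k ^ (-224) ≤ ∑ |P_k(l, m) + ∑ e_{k,i} t_i| / h_k`.
2. There is `c > 0` such that for every `X ≥ 1` all integer polynomials `P` of degree at most `2`, of height at most `X`
and with `|P(l, m)| < c X ^ (-447)` are rational multiples of one polynomial.
3. Let `1 < ρ < (w - 223) / 224`.  There is `C` such that in every family of pairwise linearly independent integer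
polynomials `P` of degree at most `2` with `|P(l, m)| ≤ ‖P‖ ^ (-w)` at most `log log X / log ρ + C` have height at most
`X`. -/
theorem result (x₁ y₁ x₂ y₂ : ℚ) (hdet : x₁ * y₂ - x₂ * y₁ ≠ 0) (l m : ℂ)
    (hl : l = x₁ * (Real.log 2 : ℂ) + y₁ * (Real.pi * Complex.I))
    (hm : m = x₂ * (Real.log 2 : ℂ) + y₂ * (Real.pi * Complex.I)) :
    (∀ r : ℕ, ∃ c : ℝ, 0 < c ∧ ∀ (t : Fin r → ℂ) (P : Fin (r + 2) → Fin 6 → ℤ)
      (e : Fin (r + 2) → Fin r → ℤ) (h : Fin (r + 2) → ℝ), LinearIndependent ℤ (fun k => (P k, e k)) →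
      (∀ k, 1 ≤ h k ∧ (∀ i, |(P k i : ℝ)| ≤ h k) ∧ ∀ i, |(e k i : ℝ)| ≤ h k) →
      c * ∏ k, (h k ^ 224)⁻¹ ≤ ∑ k, ‖value l m (P k) + ∑ i, (e k i : ℂ) * t i‖ / h k) ∧
    (∃ c : ℝ, 0 < c ∧ ∀ X : ℝ, 1 ≤ X → ∃ Q : Fin 6 → ℤ, Q ≠ 0 ∧ ∀ P : Fin 6 → ℤ,
      (∀ i, |(P i : ℝ)| ≤ X) → ‖value l m P‖ < c / X ^ 447 → ∃ a b : ℤ, a ≠ 0 ∧ a • P = b • Q) ∧
    (∀ w ρ : ℝ, 1 < ρ → ρ < (w - 223) / 224 → ∃ C : ℝ, ∀ S : Set (Fin 6 → ℤ),
      (∀ P ∈ S, ∀ Q ∈ S, P ≠ Q → LinearIndependent ℤ ![P, Q]) →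
      (∀ P ∈ S, ‖value l m P‖ ≤ ‖P‖ ^ (-w)) → ∀ X : ℝ, 3 ≤ X →
      {P ∈ S | ‖P‖ ≤ X}.Finite ∧
        ({P ∈ S | ‖P‖ ≤ X}.ncard : ℝ) ≤ Real.log (Real.log X) / Real.log ρ + C) :=
  ⟨prod_ineq x₁ y₁ x₂ y₂ hdet l m hl hm, one_line x₁ y₁ x₂ y₂ hdet l m hl hm,
    fun w ρ hρ hw => sparse x₁ y₁ x₂ y₂ hdet l m hl hm w ρ hρ hw⟩

end Pool.Agent.Results.MP_60829e_nt.QuadraticNearRelations
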