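import Mathlib
import Pool.Agent.V1139.NA.LogRings

/-!
# Logarithms of algebraic numbers: what the near relations at one scale generate

`λ_1, …, λ_n` are arbitrary complex numbers (for instance logarithms of algebraic numbers), and `S` is
a finite set of vectors `b ∈ ℤ^n` such that `∑ b_i λ_i` is a nonzero logarithm of a number of `ℚ(i)`.

(1) For every `D` there are `κ, c > 0` such that for all `H ≥ 1` the ideal of `ℚ[X_1, …, X_n]` which is
    generated by ALL integer polynomials `P` of total degree at most `D` and height at most `H` with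
    `|P(λ)| < c H ^ (-κ)` contains no nonzero polynomial in one linear form `∑ b_i X_i`, `b ∈ S`.
(2) Real `λ_i`: the same for the `ℚ`-algebra generated by all `P` such that the digits of `P(λ) / E`
    have small linear complexity at one scale `Λ`, each number in its own base: it contains no
    nonconstant polynomial in one linear form `∑ b_i X_i`, `b ∈ S`.
(3) Monomials with rational coefficients: at each scale the exponents of those of small linear
    complexity are in a subgroup of `ℤ^n` which contains no nonzero multiple of the `i`-th unit vector.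
(4) Two logarithms: at each scale one rational slope `ρ ≠ 0`.
(5) If `λ_1, …, λ_n` are linearly independent logarithms of numbers of `ℚ(i)`, all finite sets `S` of
    nonzero vectors are allowed.
-/

set_option autoImplicit false

namespace Pool.Agent.Results.MP_60829e_nt.RingsAtOneScale

open Finset Polynomial

/-- a logarithm of a number with rational real and imaginary parts -/
def LogOfGaussian (x : ℂ) : Prop := ∃ a b : ℚ, Complex.exp x = a + b * Complex.I

/-- total degree at most `D`, coefficients at most `H` in absolute value -/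
def Low {n : ℕ} (D : ℕ) (H : ℝ) (P : MvPolynomial (Fin n) ℤ) : Prop :=
  P.totalDegree ≤ D ∧ ∀ m, |((P.coeff m : ℤ) : ℝ)| ≤ H

/-- an integer polynomial as a polynomial with rational coefficients -/
noncomputable def toQ {n : ℕ} (P : MvPolynomial (Fin n) ℤ) : MvPolynomial (Fin n) ℚ :=
  P.map (Int.castRingHom ℚ)

/-- the linear form `b_1 X_1 + … + b_n X_n` -/
noncomputable def linearForm {n : ℕ} (b : Fin n → ℤ) : MvPolynomial (Fin n) ℚ :=
  ∑ i, MvPolynomial.C (b i : ℚ) * MvPolynomial.X i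

/-- all integer polynomials `P` of degree at most `D` and height at most `H` with
`|P(λ)| < c H ^ (-κ)` -/
def NearSet {n : ℕ} (lam : Fin n → ℂ) (D : ℕ) (κ c H : ℝ) : Set (MvPolynomial (Fin n) ℤ) :=
  {P | Low D H P ∧ ‖P.eval₂ (Int.castRingHom ℂ) lam‖ < c * H ^ (-κ)}

/-- the `i`-th digit of `x` after the point in base `b` -/
noncomputable def digit (b : ℕ) (x : ℝ) (i : ℕ) : ℤ := ⌊x * (b : ℝ) ^ i⌋ % (b : ℤ)

/-- The terms `s_1, …, s_L` satisfy the linear recurrence
`s_(i+m) = c_0 s_i + … + c_(m-1) s_(i+m-1)` for `1 ≤ i ≤ L - m`. -/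
def Recurrence (s : ℕ → ℤ) (c : ℕ → ℚ) (L m : ℕ) : Prop :=
  ∀ i : ℕ, 1 ≤ i → i + m ≤ L → (s (i + m) : ℚ) = ∑ j ∈ range m, c j * (s (i + j) : ℚ)

/-- the linear complexity of the first `L` digits of `x` in base `b` -/
noncomputable def complexity (b : ℕ) (x : ℝ) (L : ℕ) : ℕ :=
  sInf {m | ∃ c : ℕ → ℚ, Recurrence (digit b x) c L m}

/-- `x` has linear complexity less than `ν Λ / log b` at the scale `Λ` in some base `b` which is not
too large, for some number `L ≥ Λ / log b` of digits -/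
def Small (ν K Λ x : ℝ) : Prop :=
  ∃ b L : ℕ, 2 ≤ b ∧ K * Real.log b ≤ Λ ∧ Λ ≤ L * Real.log b ∧
    complexity b x L * Real.log b < ν * Λ

/-- all integer polynomials `P` of degree at most `D` and height at most `exp (ν Λ)` such that
`P(λ) / E` has small linear complexity at the scale `Λ` for some natural number `E ≤ exp (ν Λ)` -/
def DigitSet {n : ℕ} (lam : Fin n → ℝ) (D : ℕ) (ν K Λ : ℝ) : Set (MvPolynomial (Fin n) ℤ) :=
  {P | ∃ E : ℕ, 1 ≤ E ∧ (E : ℝ) ≤ Real.exp (ν * Λ) ∧ Low D (Real.exp (ν * Λ)) P ∧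
    Small ν K Λ (P.eval₂ (Int.castRingHom ℝ) lam / E)}

/-- the exponents `b`, `|b_i| ≤ D`, of the numbers `(A / E) ∏ λ_i ^ (b_i)` of small linear complexity
at the scale `Λ`, with integers `A ≠ 0` and `E ≥ 1` of absolute value at most `exp (ν Λ)` -/
def ExpSet {n : ℕ} (lam : Fin n → ℝ) (D : ℕ) (ν K Λ : ℝ) : Set (Fin n → ℤ) :=
  {b | (∀ i, |b i| ≤ D) ∧ ∃ (A : ℤ) (E : ℕ), A ≠ 0 ∧ |(A : ℝ)| ≤ Real.exp (ν * Λ) ∧ 1 ≤ E ∧
    (E : ℝ) ≤ Real.exp (ν * Λ) ∧ Small ν K Λ (A * (∏ i, lam i ^ b i) / E)}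

/-- a nonzero logarithm of a number of `ℚ(i)` -/
def Good (x : ℂ) : Prop := x ≠ 0 ∧ LogOfGaussian x

/-- a real number `x` such that `x` or `i x` is a nonzero logarithm of a number of `ℚ(i)` -/
def RealGood (x : ℝ) : Prop := Good x ∨ Good (x * Complex.I)

/-- the numbers with rational real and imaginary parts -/
def Gauss (z : ℂ) : Prop := ∃ a b : ℚ, z = a + b * Complex.I

lemma gauss_one : Gauss 1 := ⟨1, 0, by simp⟩

lemma gauss_mul {z w : ℂ} (hz : Gauss z) (hw : Gauss w) : Gauss (z * w) := by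
  obtain ⟨a, b, rfl⟩ := hz
  obtain ⟨c, d, rfl⟩ := hw
  refine ⟨a * c - b * d, a * d + b * c, ?_⟩
  push_cast
  have := Complex.I_mul_I
  linear_combination (b * d : ℂ) * this

lemma gauss_inv {z : ℂ} (hz : Gauss z) : Gauss z⁻¹ := by
  obtain ⟨a, b, rfl⟩ := hz
  by_cases h0 : (a : ℂ) + b * Complex.I = 0
  · rw [h0, inv_zero]
    exact ⟨0, 0, by simp⟩
  · have h1 : (a : ℚ) ^ 2 + b ^ 2 ≠ 0 := by
      intro h
      have ha : a = 0 := by nlinarith [sq_nonneg a, sq_nonneg b]
      have hb : b = 0 := by nlinarith [sq_nonneg a, sq_nonneg b]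
      apply h0
      rw [ha, hb]
      simp
    have h2 : (a : ℂ) ^ 2 + b ^ 2 ≠ 0 := by exact_mod_cast h1
    refine ⟨a / (a ^ 2 + b ^ 2), -b / (a ^ 2 + b ^ 2), ?_⟩
    push_cast
    rw [inv_eq_iff_eq_inv, eq_comm]
    refine inv_eq_of_mul_eq_one_right ?_
    field_simp
    have := Complex.I_sq
    linear_combination (-(b : ℂ) ^ 2) * this

lemma gauss_zpow {z : ℂ} (hz : Gauss z) (k : ℤ) : Gauss (z ^ k) := by
  have key : ∀ n : ℕ, Gauss (z ^ n) := by
    intro n
    induction n with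
    | zero => rw [pow_zero]; exact gauss_one
    | succ n ih => rw [pow_succ]; exact gauss_mul ih hz
  obtain ⟨n, rfl | rfl⟩ := k.eq_nat_or_neg
  · rw [zpow_natCast]; exact key n
  · rw [zpow_neg, zpow_natCast]; exact gauss_inv (key n)

lemma good_comb {n : ℕ} (lam : Fin n → ℂ) (h : ∀ i, LogOfGaussian (lam i))
    (hli : LinearIndependent ℚ lam) (b : Fin n → ℤ) (hb : b ≠ 0) :
    Good (∑ i, (b i : ℂ) * lam i) := by
  constructor
  · intro h0
    apply hb
    rw [Fintype.linearIndependent_iff] at hli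
    have h1 := hli (fun i => (b i : ℚ)) (by
      rw [← h0]
      refine Finset.sum_congr rfl fun i _ => ?_
      rw [Rat.smul_def]
      push_cast
      rfl)
    funext i
    exact_mod_cast h1 i
  · show Gauss (Complex.exp (∑ i, (b i : ℂ) * lam i))
    rw [Complex.exp_sum]
    refine Finset.prod_induction _ Gauss (fun _ _ => gauss_mul) gauss_one fun i _ => ?_
    rw [Complex.exp_int_mul]
    exact gauss_zpow (h i) _

/-- **What the near relations at one scale generate.** -/
theorem result :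
    -- (1) ideals generated by near relations
    (∀ (n : ℕ) (lam : Fin n → ℂ) (S : Finset (Fin n → ℤ)),
      (∀ b ∈ S, Good (∑ i, (b i : ℂ) * lam i)) → ∀ D : ℕ, ∃ κ c : ℝ, 0 < κ ∧ 0 < c ∧
        ∀ b ∈ S, ∀ H : ℝ, 1 ≤ H → ∀ f : ℚ[X],
          aeval (linearForm b) f ∈ Ideal.span (toQ '' NearSet lam D κ c H) → f = 0) ∧
    -- (2) algebras generated by the polynomials of small linear complexity
    (∀ (n : ℕ) (lam : Fin n → ℝ) (S : Finset (Fin n → ℤ)),
      (∀ b ∈ S, RealGood (∑ i, (b i : ℝ) * lam i)) → ∀ D : ℕ, ∃ K ν : ℝ, 0 < K ∧ 0 < ν ∧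
        ∀ b ∈ S, ∀ Λ : ℝ, ∀ f : ℚ[X],
          aeval (linearForm b) f ∈ Algebra.adjoin ℚ (toQ '' DigitSet lam D ν K Λ) →
            f.natDegree = 0) ∧
    -- (3) monomials
    (∀ (m : ℕ) (lam : Fin (m + 1) → ℝ), (∀ i, lam i ≠ 0) → ∀ D : ℕ, ∃ K ν : ℝ, 0 < K ∧ 0 < ν ∧
      ∀ Λ : ℝ, ∃ M : AddSubgroup (Fin (m + 1) → ℤ), ExpSet lam D ν K Λ ⊆ M ∧
        ∀ i, RealGood (lam i) → ∀ k : ℤ, Pi.single i k ∈ M → k = 0) ∧
    -- (4) monomials in two logarithms
    (∀ lam : Fin 2 → ℝ, (∀ i, RealGood (lam i)) → ∀ D : ℕ, ∃ K ν : ℝ, 0 < K ∧ 0 < ν ∧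
      ∀ Λ : ℝ, ∃ ρ : ℚ, ρ ≠ 0 ∧ ∀ b ∈ ExpSet lam D ν K Λ, (b 0 : ℚ) = ρ * b 1) ∧
    -- (5) linearly independent logarithms of numbers of `ℚ(i)`
    (∀ (n : ℕ) (lam : Fin n → ℂ), (∀ i, LogOfGaussian (lam i)) → LinearIndependent ℚ lam →
      ∀ b : Fin n → ℤ, b ≠ 0 → Good (∑ i, (b i : ℂ) * lam i)) :=
  ⟨fun _ lam S hS D => Pool.Agent.V1139.NA.near_ideal lam S hS D,
    fun _ lam S hS D => Pool.Agent.V1139.NA.digit_ring lam S hS D,
    fun _ lam h0 D => Pool.Agent.V1139.NA.mono_group lam h0 D,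
    fun lam h D => Pool.Agent.V1139.NA.two_logs lam h D,
    fun _ lam h hli b hb => good_comb lam h hli b hb⟩

end Pool.Agent.Results.MP_60829e_nt.RingsAtOneScale
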