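import Pool.Agent.Results.MP_60829e_nt.NumberFieldTuples
import Pool.Agent.V11286.NE.Int

/-!
# Logarithms of ALL tuples in small windows around almost every direction

Let `ω_0 ≠ 0, ω_1, …, ω_m` and `θ_1, …, θ_r` be algebraic numbers, the `θ_j` distinct, let `v_1, v_2, …` be real numbers
which tend to infinity faster than every power of `n` (for instance `v_n = 2 ^ n`), and let `F` be any countable set of
complex numbers (for instance the field generated by all periods). For almost all real `k × (m + 1)`-matrices `α` the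
following holds for all `δ`, `d` and all finite subsets `S` of `F`. For all large `n` and ALL `k`-tuples of elements
`x_i = ∑ N_ij ω_j` of the lattice (`N_ij` integers) in the window `|N_ij - α_ij v_n| ≤ v_n ^ ϑ` no choice of the logarithms
of the `k r` numbers `x_i + θ_j` satisfies a nontrivial polynomial relation of total degree at most `δ` whose coefficients
are combinations of the elements of `S` over a number field of degree at most `d`. The exponent `ϑ > 0` depends only on
`k`, `ω`, `θ`, `δ`, `d` and the number of elements of `S`; it does not depend on `v`, `F`, `S` and `α`.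

The proof: by the starting result `NumberFieldTuples` the exceptional tuples are sparse in each box, with a saving of a
power of the size of the box which is uniform in `S`; the matrices `α` such that one of the windows contains an
exceptional tuple for infinitely many `n` are a null set by the lemma of Borel and Cantelli.
-/

set_option autoImplicit false

namespace Pool.Agent.Results.MP_60829e_nt.WindowsOfTuples

open MeasureTheory NumberFieldTuples

/-- the real numbers `v_n ≥ 1` tend to infinity so fast that `∑ v_n ^ (-s) < ∞` for all `s > 0`, for instance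
`v_n = 2 ^ n` -/
def Fast (v : ℕ → ℝ) : Prop := (∀ n, 1 ≤ v n) ∧ ∀ s : ℝ, 0 < s → Summable fun n : ℕ => (v n) ^ (-s)

lemma fast_two : Fast (fun n => (2 : ℝ) ^ n) := by
  refine ⟨fun n => one_le_pow₀ (by norm_num), fun s hs => ?_⟩
  have h : (fun n : ℕ => ((2 : ℝ) ^ n) ^ (-s)) = fun n => ((2 : ℝ) ^ (-s)) ^ n := by
    funext n
    rw [← Real.rpow_natCast, ← Real.rpow_mul (by norm_num), ← Real.rpow_natCast, ← Real.rpow_mul (by norm_num)]
    congr 1
    ring
  rw [h]
  exact summable_geometric_of_lt_one (by positivity) (Real.rpow_lt_one_of_one_lt_of_neg (by norm_num) (by linarith))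

/-- **Main result.** -/
theorem result {k m r : ℕ} (hk : 1 ≤ k) (ω : Fin (m + 1) → ℂ) (hω : ∀ j, IsAlgebraic ℚ (ω j)) (hω0 : ω 0 ≠ 0)
    (θ : Fin r → ℂ) (hθ : ∀ j, IsAlgebraic ℚ (θ j)) (hinj : Function.Injective θ) :
    Fast (fun n => (2 : ℝ) ^ n) ∧
    ∃ ϑ : ℕ → ℕ → ℕ → ℝ, (∀ δ d D, 0 < ϑ δ d D) ∧ ∀ v : ℕ → ℝ, Fast v → ∀ F : Set ℂ, F.Countable →
      ∀ᵐ α : Fin k × Fin (m + 1) → ℝ, ∀ (δ d : ℕ) (S : Finset ℂ), (S : Set ℂ) ⊆ F → ∃ n₀ : ℕ, ∀ n : ℕ, n₀ ≤ n →
        ∀ N : Fin k → Fin (m + 1) → ℤ, (∀ i j, |(N i j : ℝ) - α (i, j) * v n| ≤ (v n) ^ ϑ δ d S.card) →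
          ¬ Related δ d (Submodule.span ℚ (S : Set ℂ)) ω θ N := by
  classical
  have key := fun δ d D => NumberFieldTuples.result ω hω hω0 θ hθ hinj k δ d D
  choose c hc C hC using key
  have hq : (0 : ℝ) < (k * (m + 1) : ℕ) := by
    have : 0 < k * (m + 1) := Nat.mul_pos hk (Nat.succ_pos m)
    exact_mod_cast this
  set q : ℝ := ((k * (m + 1) : ℕ) : ℝ) with hqdef
  have hcard : ((Fintype.card (Fin k × Fin (m + 1)) : ℕ) : ℝ) = q := by
    rw [Fintype.card_prod, Fintype.card_fin, Fintype.card_fin, hqdef]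
  refine ⟨fast_two, fun δ d D => min (c δ d D) q / (2 * q), fun δ d D => div_pos (lt_min (hc δ d D) hq) (by linarith), ?_⟩
  intro v hv F hF
  have : Countable F := hF.to_subtype
  have main : ∀ᵐ α : Fin k × Fin (m + 1) → ℝ, ∀ (δ d : ℕ) (S : Finset F), ∃ n₀ : ℕ, ∀ n : ℕ, n₀ ≤ n →
      ∀ t : Fin k × Fin (m + 1) → ℤ, (∀ p, |(t p : ℝ) - α p * v n| ≤ (v n) ^ (min (c δ d S.card) q / (2 * q))) →
        t ∉ {t : Fin k × Fin (m + 1) → ℤ | Related δ d (Submodule.span ℚ ((S.map ⟨Subtype.val, Subtype.val_injective⟩ :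
          Finset ℂ) : Set ℂ)) ω θ (fun i j => t (i, j))} := by
    rw [ae_all_iff]; intro δ
    rw [ae_all_iff]; intro d
    rw [ae_all_iff]; intro S
    set V : Submodule ℚ ℂ := Submodule.span ℚ ((S.map ⟨Subtype.val, Subtype.val_injective⟩ : Finset ℂ) : Set ℂ) with hV
    have hVf : Module.Finite ℚ V := Module.Finite.span_finset ℚ _
    have hVd : Module.finrank ℚ V ≤ S.card := by
      refine (finrank_span_finset_le_card _).trans ?_
      rw [Finset.card_map]
    have hc' : min (c δ d S.card) q ≤ q := min_le_right _ _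
    refine Pool.Agent.V11286.NE.ae_int (ι := Fin k × Fin (m + 1)) _ (c := min (c δ d S.card) q) (C := |C δ d S.card|)
      ?_ (by rw [hcard]; exact hc') hv.1 hv.2 ?_ ?_
    · intro T hT
      have hT1 : (1 : ℝ) ≤ T := by exact_mod_cast hT
      have h1 := (hC δ d S.card V hVf hVd T hT).1
      have h2 := (hC δ d S.card V hVf hVd T hT).2
      rw [hcard]
      have h3 : ({t : Fin k × Fin (m + 1) → ℤ | (∀ p, |t p| ≤ (T : ℤ)) ∧ t ∈ {t : Fin k × Fin (m + 1) → ℤ |
          Related δ d V ω θ (fun i j => t (i, j))}}.ncard) ≤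
          {n : Fin k → Fin (m + 1) → ℤ | (∀ i j, |n i j| ≤ T) ∧ Related δ d V ω θ n}.ncard := by
        refine Set.ncard_le_ncard_of_injOn (fun t i j => t (i, j)) ?_ ?_ h1
        · rintro t ⟨ht1, ht2⟩
          exact ⟨fun i j => ht1 (i, j), ht2⟩
        · intro s _ t _ hst
          funext p
          exact congrFun (congrFun hst p.1) p.2
      calc _ ≤ ({n : Fin k → Fin (m + 1) → ℤ | (∀ i j, |n i j| ≤ T) ∧ Related δ d V ω θ n}.ncard : ℝ) := by
            exact_mod_cast h3
        _ ≤ C δ d S.card * (T : ℝ) ^ (q - c δ d S.card) := h2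
        _ ≤ |C δ d S.card| * (T : ℝ) ^ (q - c δ d S.card) :=
            mul_le_mul_of_nonneg_right (le_abs_self _) (Real.rpow_nonneg (by linarith) _)
        _ ≤ _ := mul_le_mul_of_nonneg_left (Real.rpow_le_rpow_of_exponent_le hT1
            (by linarith [min_le_left (c δ d S.card) q])) (abs_nonneg _)
    · rw [div_le_one (by linarith)]
      linarith
    · rw [hcard]
      have h0 : q * (min (c δ d S.card) q / (2 * q)) = min (c δ d S.card) q / 2 := by
        field_simp
      rw [h0]
      have := lt_min (hc δ d S.card) hq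
      linarith
  filter_upwards [main] with α hα δ d S hS
  obtain ⟨S', hS'⟩ : ∃ S' : Finset F, S = S'.map ⟨Subtype.val, Subtype.val_injective⟩ := by
    refine ⟨S.subtype (· ∈ F), ?_⟩
    ext x
    simp only [Finset.mem_map, Finset.mem_subtype, Function.Embedding.coeFn_mk, Subtype.exists, exists_and_right,
      exists_eq_right]
    exact ⟨fun h => ⟨hS h, h⟩, fun ⟨_, h⟩ => h⟩
  obtain ⟨n₀, hn₀⟩ := hα δ d S'
  have hcd : S'.card = S.card := by rw [hS', Finset.card_map]
  refine ⟨n₀, fun n hn N hN hrel => ?_⟩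
  refine hn₀ n hn (fun p => N p.1 p.2) (fun p => ?_) ?_
  · rw [hcd]
    exact hN p.1 p.2
  · show Related δ d _ ω θ (fun i j => N i j)
    rw [← hS']
    exact hrel

end Pool.Agent.Results.MP_60829e_nt.WindowsOfTuples
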